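import Pool.Agent.N931.PN.Stm3
import Pool.Agent.H984R4.NP.ModelLem
import Pool.Agent.H389R2.NS.SumSp

/-!
# PN/WMANY (helper143): the spectral weight of the sets of edges near the boundary which meet many
cells
-/

set_option autoImplicit false

namespace Pool.Agent.N143.PN.WMany

open H974 H12S H389NS H984N H984P H342P Finset
open Pool.Agent.N116.EW Pool.Agent.N931.PN
open H342L (cdist Curve)

theorem inR_of_mem {D : Dm} {e : Edg} (h : e ∈ D.edges) : inR D.l D.r 0 D.h (src e) := by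
  obtain ⟨x, y, o⟩ := e
  cases o
  · simp only [Dm.edges, mem_RE_false] at h
    exact ⟨⟨h.1, h.2.1⟩, h.2.2.1, h.2.2.2.le⟩
  · simp only [Dm.edges, mem_RE_true] at h
    exact ⟨⟨h.1, h.2.1.le⟩, h.2.2.1, h.2.2.2⟩

/-- The trivial bound. -/
theorem triv (S L : Finset Edg) (hL : L ⊆ S) (h : Finset Edg → ℝ) (hh : ∀ F, |h F| ≤ 1)
    (P : Finset Edg → Prop) [DecidablePred P] :
    ∑ T ∈ L.powerset.filter P, (wal S h T) ^ 2 ≤ 1 := by
  calc ∑ T ∈ L.powerset.filter P, (wal S h T) ^ 2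
      ≤ ∑ T ∈ S.powerset, (wal S h T) ^ 2 := by
        refine Finset.sum_le_sum_of_subset_of_nonneg ?_ fun _ _ _ => sq_nonneg _
        exact (Finset.filter_subset _ _).trans (Finset.powerset_mono.2 hL)
    _ = Ex hp S (fun F => (h F) ^ 2) := SumSpAux.parseval S h
    _ ≤ 1 := by
        refine Ex_le_of_le SSx.hp_ok fun F _ => ?_
        have := hh F
        rw [← sq_abs]
        exact pow_le_one₀ (abs_nonneg _) this

/-- Sum of powers of two. -/
theorem geo (K : ℕ) : ∑ k ∈ Finset.range K, (2 : ℝ) ^ k = 2 ^ K - 1 := by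
  rw [geom_sum_eq (by norm_num)]
  norm_num

/-- The bound for one cell. -/
theorem cellBound (hBLK : S_BLK) (R : Rect) (δ : ℝ) (hδ : 0 < δ) (hok : (R.dm δ).Ok)
    (f : Curve → ℝ) (hf1 : Lp f) (B : Finset Edg) (w K : ℕ) (hw : 1 ≤ w) (C : ℝ) (hC : 0 ≤ C)
    (hP : ∀ k ≤ K, Pr hp (R.dm δ).edges (LG (R.dm δ) B (2 ^ k * w)) ≤
      C * ((w : ℝ) / ((2 ^ k * w : ℕ) : ℝ))) :
    Ex hp (R.dm δ).edges (fun F => (hf R δ f F - hf R δ f (F \ B)) ^ 2) ≤
      169 * (δ * w) ^ 2 + 676 * C * ((δ * w) * (δ * w * 2 ^ K)) + 4 * C * (1 / 2 ^ K) := by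
  have hw0 : (0 : ℝ) < w := by exact_mod_cast hw
  have hPk : ∀ k ≤ K, Pr hp (R.dm δ).edges (LG (R.dm δ) B (2 ^ k * w)) ≤ C * (1 / 2 ^ k) := by
    intro k hk
    refine (hP k hk).trans (le_of_eq ?_)
    push_cast
    field_simp
  have h1 : Ex hp (R.dm δ).edges (fun F => (hf R δ f F - hf R δ f (F \ B)) ^ 2) ≤
      Ex hp (R.dm δ).edges (fun F => (13 * δ * w) ^ 2 +
      ∑ k ∈ Finset.range K, (26 * δ * 2 ^ k * w) ^ 2 * ind (LG (R.dm δ) B (2 ^ k * w) F) +
        4 * ind (LG (R.dm δ) B (2 ^ K * w) F)) := by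
    refine Ex_mono SSx.hp_ok fun F hF => ?_
    exact hBLK R δ hδ hok f hf1.1 hf1.2 B F hF w K hw
  have h2 : Ex hp (R.dm δ).edges (fun F => (13 * δ * w) ^ 2 +
      ∑ k ∈ Finset.range K, (26 * δ * 2 ^ k * w) ^ 2 * ind (LG (R.dm δ) B (2 ^ k * w) F) +
        4 * ind (LG (R.dm δ) B (2 ^ K * w) F)) = (13 * δ * w) ^ 2 +
      ∑ k ∈ Finset.range K, (26 * δ * 2 ^ k * w) ^ 2 *
        Pr hp (R.dm δ).edges (LG (R.dm δ) B (2 ^ k * w)) +
        4 * Pr hp (R.dm δ).edges (LG (R.dm δ) B (2 ^ K * w)) := by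
    rw [Ex_add, Ex_add, Ex_const, Ex_sum, Ex_mul_left]
    congr 2
    refine Finset.sum_congr rfl fun k _ => ?_
    rw [Ex_mul_left]
    rfl
  rw [h2] at h1
  refine h1.trans ?_
  have h3 : ∑ k ∈ Finset.range K, (26 * δ * 2 ^ k * w) ^ 2 *
        Pr hp (R.dm δ).edges (LG (R.dm δ) B (2 ^ k * w)) ≤
      676 * C * ((δ * w) * (δ * w * 2 ^ K)) := by
    calc ∑ k ∈ Finset.range K, (26 * δ * 2 ^ k * w) ^ 2 *
        Pr hp (R.dm δ).edges (LG (R.dm δ) B (2 ^ k * w))
        ≤ ∑ k ∈ Finset.range K, (26 * δ * 2 ^ k * w) ^ 2 * (C * (1 / 2 ^ k)) := by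
          refine Finset.sum_le_sum fun k hk => ?_
          exact mul_le_mul_of_nonneg_left (hPk k (Finset.mem_range.1 hk).le) (sq_nonneg _)
      _ = ∑ k ∈ Finset.range K, (676 * C * (δ * w) ^ 2) * 2 ^ k := by
          refine Finset.sum_congr rfl fun k _ => ?_
          field_simp
          ring
      _ = (676 * C * (δ * w) ^ 2) * (2 ^ K - 1) := by
          rw [← Finset.mul_sum, geo]
      _ ≤ (676 * C * (δ * w) ^ 2) * 2 ^ K := by
          refine mul_le_mul_of_nonneg_left (by linarith) (by positivity)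
      _ = _ := by ring
  have h4 := hPk K le_rfl
  have h5 : (13 * δ * (w : ℝ)) ^ 2 = 169 * (δ * w) ^ 2 := by ring
  rw [h5]
  have h6 : 4 * Pr hp (R.dm δ).edges (LG (R.dm δ) B (2 ^ K * w)) ≤ 4 * C * (1 / 2 ^ K) := by
    linarith
  linarith

theorem main (hMB : S_MB) (hBLK : S_BLK) (hLG3 : S_LG3) (hCNT : S_CNT) : S_WMANY := by
  intro R
  obtain ⟨κ, S, δ0, hκ, hS, hδ0, -, hshape⟩ := R.shape
  obtain ⟨C3, c, hC3, hc, hLG⟩ := hLG3 κ hκ
  obtain ⟨hCNT1, C4, hC4, hCNT2⟩ := hCNT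
  refine ⟨2 / S + 2 / c + C4 * S * (676 + 2704 * C3 * c + 16 * C3 / c), min δ0 S, by positivity,
    lt_min hδ0 hS, ?_⟩
  intro δ b hδ hδle hb hb1 hδb f hf1 m w J hw1 hw2 hm1 hm2 hJ L hL hLbd
  have hSh := hshape δ hδ (hδle.trans (min_le_left _ _))
  have hδS : δ ≤ S := hδle.trans (min_le_right _ _)
  set A : ℝ := 676 + 2704 * C3 * c + 16 * C3 / c with hA
  have hA0 : 0 < A := by positivity
  have hb30 : b ^ 30 ≤ b ^ 4 := pow_le_pow_of_le_one hb.le hb1 (by norm_num)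
  -- bounds
  have e1 : b ^ 30 ≤ δ * w := by
    rw [div_le_iff₀ hδ] at hw1
    linarith
  have e2 : δ * w ≤ 2 * b ^ 30 := by
    have : (w : ℝ) ≤ (2 * b ^ 30) / δ := by rw [mul_div_assoc]; exact hw2
    rw [le_div_iff₀ hδ] at this
    linarith
  have e3 : b ^ 3 ≤ δ * m := by
    rw [div_le_iff₀ hδ] at hm1
    linarith
  have e4 : δ * m ≤ 2 * b ^ 3 := by
    have : (m : ℝ) ≤ (2 * b ^ 3) / δ := by rw [mul_div_assoc]; exact hm2
    rw [le_div_iff₀ hδ] at this
    linarith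
  have hw0 : (0 : ℝ) < w := by
    have : 0 < δ * w := lt_of_lt_of_le (by positivity) e1
    exact (pos_iff_pos_of_mul_pos this).1 hδ
  have hw : 1 ≤ w := by
    have : 0 < w := by exact_mod_cast hw0
    omega
  have hJ0 : (0 : ℝ) < J := by
    have : 0 < (J : ℝ) * b ^ 4 := lt_of_lt_of_le one_pos hJ
    exact (pos_iff_pos_of_mul_pos this).2 (by positivity)
  have hJ1 : 1 ≤ J := by
    have : 0 < J := by exact_mod_cast hJ0
    omega
  have htriv := triv (R.dm δ).edges L hL (hf R δ f) (fun F => hf1.2 _)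
    (fun T => J < (T.image (N931.PN.cell w)).card)
  by_cases hwn : S / δ < w
  · -- large cells
    rw [div_lt_iff₀ hδ] at hwn
    have hb' : S < 2 * b := by
      have : b ^ 30 ≤ b := by
        calc b ^ 30 ≤ b ^ 1 := pow_le_pow_of_le_one hb.le hb1 (by norm_num)
          _ = b := pow_one b
      linarith
    have h1 : 1 ≤ 2 / S * b := by
      rw [div_mul_eq_mul_div, le_div_iff₀ hS]
      linarith
    have h2 : 0 ≤ (2 / c + C4 * S * A) * b := by positivity
    refine htriv.trans ?_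
    calc (1 : ℝ) ≤ 2 / S * b + (2 / c + C4 * S * A) * b := by linarith
      _ = _ := by ring
  by_cases hcm : c * m < w
  · have hb' : c < 2 * b := by
      have h1 : c * b ^ 3 ≤ c * (δ * m) := mul_le_mul_of_nonneg_left e3 hc.le
      have h2 : c * (δ * m) < δ * w := by
        have : δ * (c * m) < δ * w := mul_lt_mul_of_pos_left hcm hδ
        linarith
      have h3 : c * b ^ 3 < (2 * b) * b ^ 3 := by
        have : (2 * b) * b ^ 3 = 2 * b ^ 4 := by ring
        rw [this]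
        linarith
      exact lt_of_mul_lt_mul_right h3 (by positivity)
    have h1 : 1 ≤ 2 / c * b := by
      rw [div_mul_eq_mul_div, le_div_iff₀ hc]
      linarith
    have h2 : 0 ≤ (2 / S + C4 * S * A) * b := by positivity
    refine htriv.trans ?_
    calc (1 : ℝ) ≤ 2 / c * b + (2 / S + C4 * S * A) * b := by linarith
      _ = _ := by ring
  push Not at hwn hcm
  -- the scale
  obtain ⟨K, hK1, hK2⟩ : ∃ K : ℕ, (2 : ℝ) ^ K ≤ c * m / w ∧ c * m / w < 2 ^ (K + 1) :=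
    exists_nat_pow_near (by rw [le_div_iff₀ hw0]; linarith) (by norm_num)
  rw [le_div_iff₀ hw0] at hK1
  rw [div_lt_iff₀ hw0] at hK2
  -- one cell
  have hcell : ∀ i ∈ L.image (N931.PN.cell w), Ex hp (R.dm δ).edges (fun F => (hf R δ f F -
      hf R δ f (F \ L.filter (fun e => N931.PN.cell w e = i))) ^ 2) ≤ A * b ^ 27 := by
    intro i hi
    obtain ⟨e0, he0, rfl⟩ := Finset.mem_image.1 hi
    have hz := inR_of_mem (hL he0)
    have hB : L.filter (fun e => N931.PN.cell w e = N931.PN.cell w e0) ⊆ blk (src e0) w := by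
      intro e' he'
      exact hCNT1 w hw e0 e' (Finset.mem_filter.1 he').2
    have hP : ∀ k ≤ K, Pr hp (R.dm δ).edges (LG (R.dm δ)
        (L.filter (fun e => N931.PN.cell w e = N931.PN.cell w e0)) (2 ^ k * w)) ≤
        C3 * ((w : ℝ) / ((2 ^ k * w : ℕ) : ℝ)) := by
      intro k hk
      refine hLG (S / δ) (R.dm δ) ?_ hSh (src e0) _ w (2 ^ k * w) hz hw (hLbd e0 he0).1.le hB
        (Nat.le_mul_of_pos_left _ (by positivity)) ?_
      · rw [le_div_iff₀ hδ]; linarith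
      · push_cast
        have h1 : (2 : ℝ) ^ k ≤ 2 ^ K := pow_le_pow_right₀ (by norm_num) hk
        have h2 : (2 : ℝ) ^ k * w ≤ 2 ^ K * w := mul_le_mul_of_nonneg_right h1 hw0.le
        have h3 : (m : ℝ) ≤ ((qd (R.dm δ) (src e0) : ℤ) : ℝ) := by
          exact_mod_cast (hLbd e0 he0).2
        have h4 := mul_le_mul_of_nonneg_left h3 hc.le
        linarith
    have h := cellBound hBLK R δ hδ hSh.ok f hf1 _ w K hw C3 hC3.le hP
    refine h.trans ?_
    have hdw0 : 0 < δ * w := by positivity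
    have b57 : b ^ 60 ≤ b ^ 27 := pow_le_pow_of_le_one hb.le hb1 (by norm_num)
    have b33 : b ^ 33 ≤ b ^ 27 := pow_le_pow_of_le_one hb.le hb1 (by norm_num)
    have t1 : 169 * (δ * w) ^ 2 ≤ 676 * b ^ 27 := by
      have : (δ * w) ^ 2 ≤ (2 * b ^ 30) ^ 2 := pow_le_pow_left₀ hdw0.le e2 2
      have h60 : (2 * b ^ 30) ^ 2 = 4 * b ^ 60 := by ring
      rw [h60] at this
      linarith
    have t2 : (δ * w) * (δ * w * 2 ^ K) ≤ 4 * c * b ^ 27 := by
      have u1 : δ * w * 2 ^ K ≤ c * (2 * b ^ 3) := by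
        have v1 : δ * (2 ^ K * w) ≤ δ * (c * m) := mul_le_mul_of_nonneg_left hK1 hδ.le
        have v2 : c * (δ * m) ≤ c * (2 * b ^ 3) := mul_le_mul_of_nonneg_left e4 hc.le
        linarith
      have u2 : (δ * w) * (δ * w * 2 ^ K) ≤ (2 * b ^ 30) * (c * (2 * b ^ 3)) :=
        mul_le_mul e2 u1 (by positivity) (by positivity)
      have u3 : (2 * b ^ 30) * (c * (2 * b ^ 3)) = 4 * c * b ^ 33 := by ring
      rw [u3] at u2
      have u4 : 4 * c * b ^ 33 ≤ 4 * c * b ^ 27 := mul_le_mul_of_nonneg_left b33 (by positivity)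
      linarith
    have t3 : 1 / (2 : ℝ) ^ K ≤ 4 / c * b ^ 27 := by
      rw [div_le_iff₀ (by positivity)]
      -- c b^3 <= c δ m < 2^(K+1) δ w <= 2^(K+1) 2 b^30
      have u1 : c * b ^ 3 ≤ c * (δ * m) := mul_le_mul_of_nonneg_left e3 hc.le
      have u2 : δ * (c * m) ≤ δ * (2 ^ (K + 1) * w) := mul_le_mul_of_nonneg_left hK2.le hδ.le
      have u3 : 2 ^ (K + 1) * (δ * w) ≤ 2 ^ (K + 1) * (2 * b ^ 30) :=
        mul_le_mul_of_nonneg_left e2 (by positivity)
      have u4 : c * b ^ 3 ≤ (4 * b ^ 27 * 2 ^ K) * b ^ 3 := by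
        have : (4 * b ^ 27 * 2 ^ K) * b ^ 3 = 2 ^ (K + 1) * (2 * b ^ 30) := by ring
        rw [this]
        linarith
      have u5 : c ≤ 4 * b ^ 27 * 2 ^ K := le_of_mul_le_mul_right u4 (by positivity)
      have u6 : 4 / c * b ^ 27 * 2 ^ K = (4 * b ^ 27 * 2 ^ K) / c := by ring
      rw [u6, le_div_iff₀ hc]
      linarith
    have t2' : 676 * C3 * ((δ * w) * (δ * w * 2 ^ K)) ≤ 676 * C3 * (4 * c * b ^ 27) :=
      mul_le_mul_of_nonneg_left t2 (by positivity)
    have t3' : 4 * C3 * (1 / 2 ^ K) ≤ 4 * C3 * (4 / c * b ^ 27) :=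
      mul_le_mul_of_nonneg_left t3 (by positivity)
    have hAe : A * b ^ 27 = 676 * b ^ 27 + 676 * C3 * (4 * c * b ^ 27) +
        4 * C3 * (4 / c * b ^ 27) := by
      rw [hA]; ring
    rw [hAe]
    linarith
  -- number of cells
  have hcard : ((L.image (N931.PN.cell w)).card : ℝ) ≤ C4 * S * (b ^ 30)⁻¹ := by
    have h1 : (L.image (N931.PN.cell w)).card ≤
        (((R.dm δ).edges.filter (fun e => (R.dm δ).bd (src e) < w)).image (N931.PN.cell w)).card := by
      refine Finset.card_le_card (Finset.image_subset_image ?_)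
      intro e he
      exact Finset.mem_filter.2 ⟨hL he, (hLbd e he).1⟩
    have h2 := (hCNT2 (S / δ) κ (R.dm δ) (by rw [le_div_iff₀ hδ]; linarith) hκ hSh w hw hwn).2
    have h3 : ((L.image (N931.PN.cell w)).card : ℝ) ≤
        ((((R.dm δ).edges.filter (fun e => (R.dm δ).bd (src e) < w)).image (N931.PN.cell w)).card : ℝ) := by
      exact_mod_cast h1
    refine h3.trans (h2.trans ?_)
    have h4 : S / δ / w = S * (δ * w)⁻¹ := by
      rw [div_div, div_eq_mul_inv]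
    rw [h4]
    have h5 : (δ * w)⁻¹ ≤ (b ^ 30)⁻¹ := inv_anti₀ (by positivity) e1
    have h6 : C4 * S * (δ * w)⁻¹ ≤ C4 * S * (b ^ 30)⁻¹ :=
      mul_le_mul_of_nonneg_left h5 (by positivity)
    linarith
  have hmain := hMB (R.dm δ).edges L hL (hf R δ f) (N931.PN.cell w) J hJ1
  refine hmain.trans ?_
  have hsum : ∑ i ∈ L.image (N931.PN.cell w), Ex hp (R.dm δ).edges (fun F => (hf R δ f F -
      hf R δ f (F \ L.filter (fun e => N931.PN.cell w e = i))) ^ 2) ≤
      (C4 * S * (b ^ 30)⁻¹) * (A * b ^ 27) := by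
    refine (Finset.sum_le_sum hcell).trans ?_
    rw [Finset.sum_const, nsmul_eq_mul]
    exact mul_le_mul_of_nonneg_right hcard (by positivity)
  have hfin : (C4 * S * (b ^ 30)⁻¹) * (A * b ^ 27) / J ≤ C4 * S * A * b := by
    rw [div_le_iff₀ hJ0]
    have h1 : (C4 * S * (b ^ 30)⁻¹) * (A * b ^ 27) = C4 * S * A * (b ^ 3)⁻¹ := by
      field_simp
    have h2 : C4 * S * A * b * J = C4 * S * A * (b ^ 3)⁻¹ * (J * b ^ 4) := by
      field_simp
    rw [h1, h2]
    have h3 : 0 ≤ C4 * S * A * (b ^ 3)⁻¹ := by positivity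
    exact le_mul_of_one_le_right h3 hJ
  have h5 : 0 ≤ (2 / S + 2 / c) * b := by positivity
  calc _ ≤ (C4 * S * (b ^ 30)⁻¹) * (A * b ^ 27) / J := div_le_div_of_nonneg_right hsum hJ0.le
    _ ≤ C4 * S * A * b := hfin
    _ ≤ C4 * S * A * b + (2 / S + 2 / c) * b := by linarith
    _ = _ := by ring

end Pool.Agent.N143.PN.WMany
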